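import Pool.Agent.Helper95.Riesz.SDefs

/-!
# Riesz energy, source side, module GAUSS: the one-dimensional Gaussian decomposition
-/

set_option autoImplicit false
open MeasureTheory Set Filter Topology
open scoped ENNReal NNReal FourierTransform SchwartzMap

namespace Helper23.Riesz

theorem integrableOn_gd {a : ℝ} (ha : 0 < a) (ha2 : a < 2) {u : ℝ} (hu : 0 ≤ u) :
    IntegrableOn (fun t : ℝ => t ^ (-(a / 2) - 1) * (1 - Real.exp (-(t * u)))) (Ioi (0:ℝ)) := by
  have hmeas : Measurable (fun t : ℝ => t ^ (-(a / 2) - 1) * (1 - Real.exp (-(t * u)))) := by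
    fun_prop
  rw [← Ioc_union_Ioi_eq_Ioi (zero_le_one (α := ℝ))]
  refine IntegrableOn.union ?_ ?_
  · have h1 : IntegrableOn (fun t : ℝ => u * t ^ (-(a / 2))) (Ioc (0:ℝ) 1) := by
      refine Integrable.const_mul ?_ u
      have := intervalIntegral.intervalIntegrable_rpow' (a := 0) (b := 1)
        (r := -(a / 2)) (by linarith)
      rwa [intervalIntegrable_iff_integrableOn_Ioc_of_le zero_le_one] at this
    refine Integrable.mono' h1 hmeas.aestronglyMeasurable ?_
    filter_upwards [ae_restrict_mem measurableSet_Ioc] with t ht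
    have ht0 : 0 < t := ht.1
    have h2 : 0 ≤ t * u := by positivity
    have h3 : 1 - Real.exp (-(t * u)) ≤ t * u := by
      have := Real.add_one_le_exp (-(t * u))
      linarith
    have h4 : 0 ≤ 1 - Real.exp (-(t * u)) := by
      have := Real.exp_le_one_iff.2 (neg_nonpos.2 h2)
      linarith
    have h5 : 0 ≤ t ^ (-(a / 2) - 1) := Real.rpow_nonneg ht0.le _
    rw [Real.norm_of_nonneg (mul_nonneg h5 h4)]
    calc t ^ (-(a / 2) - 1) * (1 - Real.exp (-(t * u))) ≤ t ^ (-(a / 2) - 1) * (t * u) :=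
          mul_le_mul_of_nonneg_left h3 h5
      _ = u * t ^ (-(a / 2)) := by
          rw [Real.rpow_sub_one ht0.ne']
          field_simp
  · have h1 : IntegrableOn (fun t : ℝ => t ^ (-(a / 2) - 1)) (Ioi (1:ℝ)) :=
      integrableOn_Ioi_rpow_of_lt (by linarith) zero_lt_one
    refine Integrable.mono' h1 hmeas.aestronglyMeasurable ?_
    filter_upwards [ae_restrict_mem measurableSet_Ioi] with t ht
    have ht0 : 0 < t := lt_trans zero_lt_one ht
    have h2 : 0 ≤ t * u := by positivity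
    have h3 : 1 - Real.exp (-(t * u)) ≤ 1 := by
      have := Real.exp_pos (-(t * u))
      linarith
    have h4 : 0 ≤ 1 - Real.exp (-(t * u)) := by
      have := Real.exp_le_one_iff.2 (neg_nonpos.2 h2)
      linarith
    have h5 : 0 ≤ t ^ (-(a / 2) - 1) := Real.rpow_nonneg ht0.le _
    rw [Real.norm_of_nonneg (mul_nonneg h5 h4)]
    exact mul_le_of_le_one_right h5 h3

lemma gd_integral_pos {a : ℝ} (ha : 0 < a) (ha2 : a < 2) :
    0 < ∫ t in Ioi (0:ℝ), t ^ (-(a / 2) - 1) * (1 - Real.exp (-t)) := by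
  have hint : IntegrableOn (fun t : ℝ => t ^ (-(a / 2) - 1) * (1 - Real.exp (-t))) (Ioi (0:ℝ)) := by
    simpa using integrableOn_gd ha ha2 (zero_le_one (α := ℝ))
  have hpos : ∀ t ∈ Ioi (0:ℝ), 0 < t ^ (-(a / 2) - 1) * (1 - Real.exp (-t)) := by
    intro t ht
    have ht0 : 0 < t := ht
    have h1 : Real.exp (-t) < 1 := Real.exp_lt_one_iff.2 (by linarith)
    have h2 : 0 < t ^ (-(a / 2) - 1) := Real.rpow_pos_of_pos ht0 _
    have h3 : 0 < 1 - Real.exp (-t) := by linarith
    positivity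
  rw [setIntegral_pos_iff_support_of_nonneg_ae]
  · have : (Function.support fun t : ℝ => t ^ (-(a / 2) - 1) * (1 - Real.exp (-t))) ∩ Ioi 0 =
        Ioi 0 := by
      apply inter_eq_right.2
      intro t ht
      exact (hpos t ht).ne'
    rw [this]
    simp
  · filter_upwards [ae_restrict_mem measurableSet_Ioi] with t ht
    exact (hpos t ht).le
  · exact hint

theorem ca_pos {a : ℝ} (ha : 0 < a) (ha2 : a < 2) : 0 < ca a :=
  inv_pos.2 (gd_integral_pos ha ha2)

theorem gauss_decomp {a : ℝ} (ha : 0 < a) (ha2 : a < 2) {r : ℝ} (hr : 0 ≤ r) :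
    r ^ a = ca a * ∫ t in Ioi (0:ℝ), t ^ (-(a / 2) - 1) * (1 - Real.exp (-(t * r ^ 2))) := by
  rcases hr.eq_or_lt with rfl | hr
  · rw [Real.zero_rpow ha.ne']
    simp
  · have hr2 : 0 < r ^ 2 := by positivity
    have h1 := integral_comp_mul_left_Ioi
      (fun y : ℝ => y ^ (-(a / 2) - 1) * (1 - Real.exp (-y))) 0 hr2
    rw [mul_zero] at h1
    have h2 : ∫ t in Ioi (0:ℝ), (r ^ 2 * t) ^ (-(a / 2) - 1) * (1 - Real.exp (-(r ^ 2 * t))) =
        (r ^ 2) ^ (-(a / 2) - 1) *
          ∫ t in Ioi (0:ℝ), t ^ (-(a / 2) - 1) * (1 - Real.exp (-(t * r ^ 2))) := by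
      rw [← integral_const_mul]
      refine setIntegral_congr_fun measurableSet_Ioi fun t ht => ?_
      have ht0 : 0 < t := ht
      rw [Real.mul_rpow hr2.le ht0.le, mul_comm (r ^ 2) t]
      ring
    simp only [smul_eq_mul] at h1
    rw [h2] at h1
    have hI := (gd_integral_pos ha ha2).ne'
    unfold ca
    set I := ∫ t in Ioi (0:ℝ), t ^ (-(a / 2) - 1) * (1 - Real.exp (-t)) with hIdef
    set K := ∫ t in Ioi (0:ℝ), t ^ (-(a / 2) - 1) * (1 - Real.exp (-(t * r ^ 2))) with hKdef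
    have h3 : (r ^ 2) ^ (-(a / 2) - 1) = (r ^ a)⁻¹ * (r ^ 2)⁻¹ := by
      rw [Real.rpow_sub_one hr2.ne', Real.rpow_neg hr2.le, ← Real.rpow_natCast r 2,
        ← Real.rpow_mul hr.le]
      have : ((2:ℕ) : ℝ) * (a / 2) = a := by push_cast; ring
      rw [this]
      rfl
    rw [h3] at h1
    have hra : 0 < r ^ a := Real.rpow_pos_of_pos hr a
    have h4 : K = r ^ a * I := by
      have h5 : (r ^ a)⁻¹ * K = I := by
        have h6 : (r ^ 2)⁻¹ * ((r ^ a)⁻¹ * K) = (r ^ 2)⁻¹ * I := by rw [← h1]; ring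
        exact mul_left_cancel₀ (inv_ne_zero hr2.ne') h6
      rw [← h5]
      field_simp
    rw [h4]
    field_simp

end Helper23.Riesz
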