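import Pool.Agent.Helper74.Riesz.PDId
import Pool.Agent.Helper74.Riesz.Gauss1
import Pool.Agent.Helper94.Riesz.Mis

/-!
# Riesz energy, source side, module GAP
-/

set_option autoImplicit false
open MeasureTheory Set Filter Topology
open scoped ENNReal NNReal FourierTransform SchwartzMap

namespace Helper23.Riesz

variable {s : ℝ} {d : ℕ}

/-- the average of a Gaussian -/
noncomputable def Ag (d : ℕ) (t : ℝ) : ℝ :=
  avg2 (fun x y : S d => Real.exp (-(t * dist x y ^ 2)))

lemma Ag_eq (t : ℝ) (x : S d) : ∫ y, Real.exp (-(t * dist x y ^ 2)) ∂(sig d) = Ag d t :=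
  zonal (fun r => Real.exp (-(t * r ^ 2))) x

theorem DT_nonneg (hd : 1 ≤ d) (X : Finset (S d)) {t : ℝ} (ht : 0 < t) : 0 ≤ DT X t := by
  have hprob := isProbabilityMeasure_sig d
  have hemb : MeasurableEmbedding (Subtype.val : S d → E d) :=
    MeasurableEmbedding.subtype_coe (Metric.isClosed_sphere.measurableSet)
  set μ : Measure (E d) := ∑ x ∈ X, Measure.dirac (x : E d) with hμ
  set ν : Measure (E d) := ENNReal.ofReal X.card • (sig d).map Subtype.val with hν
  have hfμ : IsFiniteMeasure μ := by rw [hμ]; infer_instance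
  have hfm : IsProbabilityMeasure ((sig d).map (Subtype.val : S d → E d)) :=
    Measure.isProbabilityMeasure_map hemb.measurable.aemeasurable
  have hfν : IsFiniteMeasure ν := by
    refine ⟨?_⟩
    rw [hν, Measure.smul_apply, measure_univ, smul_eq_mul, mul_one]
    exact ENNReal.ofReal_lt_top
  have h1 : ∀ f : E d → ℝ, ∫ x, f x ∂μ = ∑ x ∈ X, f x := by
    intro f
    rw [hμ, integral_finsetSum_measure fun i _ => integrable_dirac (by simp)]
    simp only [integral_dirac]
  have h2 : ∀ f : E d → ℝ, ∫ x, f x ∂ν = X.card * ∫ x, f (x : E d) ∂(sig d) := by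
    intro f
    rw [hν, integral_smul_measure, ENNReal.toReal_ofReal (Nat.cast_nonneg _), smul_eq_mul,
      hemb.integral_map]
  have e1 : Qt t μ μ = ∑ x ∈ X, ∑ y ∈ X, Real.exp (-(t * dist x y ^ 2)) := by
    unfold Qt
    rw [h1]
    refine Finset.sum_congr rfl fun x _ => ?_
    rw [h1]
    rfl
  have e2 : Qt t μ ν = (X.card : ℝ) ^ 2 * Ag d t := by
    unfold Qt
    rw [h1]
    have : ∀ x ∈ X, ∫ y, Real.exp (-(t * dist (x : E d) y ^ 2)) ∂ν = X.card * Ag d t := by
      intro x _
      rw [h2, ← Ag_eq t x]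
      rfl
    rw [Finset.sum_congr rfl this, Finset.sum_const, nsmul_eq_mul]
    ring
  have e3 : Qt t ν ν = (X.card : ℝ) ^ 2 * Ag d t := by
    unfold Qt
    rw [h2]
    have : ∀ x : S d, ∫ y, Real.exp (-(t * dist (x : E d) y ^ 2)) ∂ν = X.card * Ag d t := by
      intro x
      rw [h2, ← Ag_eq t x]
      rfl
    simp only [this]
    rw [integral_const, probReal_univ, one_smul]
    ring
  have h3 := (pd_identity μ ν ht).1
  rw [e1, e2, e3] at h3
  unfold DT
  have : avg2 (fun x y : S d => Real.exp (-(t * dist x y ^ 2))) = Ag d t := rfl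
  rw [this]
  linarith

/-- the weight -/
noncomputable def wr (a t : ℝ) : ℝ := t ^ (-(a / 2) - 1)

lemma integrableOn_sph (hs : -2 < s) (hs0 : s < 0) (x : S d) :
    Integrable (fun p : S d × ℝ => wr (-s) p.2 * (1 - Real.exp (-(p.2 * dist x p.1 ^ 2))))
      ((sig d).prod (volume.restrict (Ioi (0:ℝ)))) := by
  have hprob := isProbabilityMeasure_sig d
  have hg := (integrableOn_gd (a := -s) (by linarith) (by linarith)
    (by norm_num : (0:ℝ) ≤ 4)).comp_snd (sig d)
  refine hg.mono' ?_ ?_
  · have : Measurable (fun p : S d × ℝ => wr (-s) p.2 *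
        (1 - Real.exp (-(p.2 * dist x p.1 ^ 2)))) := by
      unfold wr
      have h1 : Measurable fun p : S d × ℝ => dist x p.1 :=
        (continuous_const.dist continuous_id).measurable.comp measurable_fst
      exact (measurable_snd.pow_const _).mul
        (measurable_const.sub (Real.measurable_exp.comp ((measurable_snd.mul (h1.pow_const 2)).neg)))
    exact this.aestronglyMeasurable
  · have hae : ∀ᵐ q ∂((sig d).prod ((volume : Measure ℝ).restrict (Ioi 0))), q.2 ∈ Ioi (0:ℝ) := by
      have h1 : ∀ᵐ t ∂((volume : Measure ℝ).restrict (Ioi 0)), t ∈ Ioi (0:ℝ) :=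
        ae_restrict_mem measurableSet_Ioi
      exact Measure.quasiMeasurePreserving_snd.ae h1
    filter_upwards [hae] with p hp
    have hp0 : 0 < p.2 := hp
    have h2 := dist_le_two x p.1
    have h3 : 0 ≤ dist x p.1 := dist_nonneg
    have h4 : dist x p.1 ^ 2 ≤ 4 := by nlinarith
    have h5 : 0 ≤ wr (-s) p.2 := Real.rpow_nonneg hp0.le _
    have h6 : 0 ≤ p.2 * dist x p.1 ^ 2 := by positivity
    have h7 : 0 ≤ 1 - Real.exp (-(p.2 * dist x p.1 ^ 2)) := by
      have := Real.exp_le_one_iff.2 (neg_nonpos.2 h6)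
      linarith
    rw [Real.norm_of_nonneg (mul_nonneg h5 h7)]
    refine mul_le_mul_of_nonneg_left ?_ h5
    have h8 : Real.exp (-(p.2 * 4)) ≤ Real.exp (-(p.2 * dist x p.1 ^ 2)) := by
      apply Real.exp_le_exp.2
      nlinarith
    linarith

lemma V_gauss (hs : -2 < s) (hs0 : s < 0) :
    Integrable (fun t => wr (-s) t * (1 - Ag d t)) (volume.restrict (Ioi (0:ℝ))) ∧
    V s d = ca (-s) * ∫ t in Ioi (0:ℝ), wr (-s) t * (1 - Ag d t) := by
  have hprob := isProbabilityMeasure_sig d
  have x : S d := ⟨EuclideanSpace.single 0 (1:ℝ), by simp⟩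
  have hI := integrableOn_sph hs hs0 x
  have h1 : ∀ t ∈ Ioi (0:ℝ), ∫ y, wr (-s) t * (1 - Real.exp (-(t * dist x y ^ 2))) ∂(sig d) =
      wr (-s) t * (1 - Ag d t) := by
    intro t ht
    have ht0 : 0 < t := ht
    rw [integral_const_mul, integral_sub (integrable_const _), Ag_eq, integral_const,
      probReal_univ, one_smul]
    refine Integrable.of_bound ?_ 1 (Eventually.of_forall fun y => ?_)
    · have : Measurable fun y : S d => Real.exp (-(t * dist x y ^ 2)) := by
        have h1 : Measurable fun y : S d => dist x y :=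
          (continuous_const.dist continuous_id).measurable
        exact Real.measurable_exp.comp ((measurable_const.mul (h1.pow_const 2)).neg)
      exact this.aestronglyMeasurable
    · rw [Real.norm_of_nonneg (Real.exp_pos _).le]
      exact Real.exp_le_one_iff.2 (by have := sq_nonneg (dist x y); nlinarith)
  constructor
  · refine (hI.integral_prod_right).congr ?_
    filter_upwards [ae_restrict_mem measurableSet_Ioi] with t ht
    exact h1 t ht
  · rw [← integral_K x]
    have h2 : ∀ y : S d, K s x y = ca (-s) *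
        ∫ t in Ioi (0:ℝ), wr (-s) t * (1 - Real.exp (-(t * dist x y ^ 2))) := fun y =>
      gauss_decomp (by linarith) (by linarith) dist_nonneg
    simp only [h2]
    rw [integral_const_mul, integral_integral_swap hI]
    congr 1
    exact setIntegral_congr_fun measurableSet_Ioi h1

lemma gap_real (hs : -2 < s) (hs0 : s < 0) (X : Finset (S d)) :
    Integrable (fun t => wr (-s) t * DT X t) (volume.restrict (Ioi (0:ℝ))) ∧
    (X.card : ℝ) ^ 2 * V s d - en s X = ca (-s) * ∫ t in Ioi (0:ℝ), wr (-s) t * DT X t := by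
  obtain ⟨i1, e1⟩ := V_gauss (d := d) hs hs0
  have i2 : ∀ x y : S d, Integrable (fun t => wr (-s) t * (1 - Real.exp (-(t * dist x y ^ 2))))
      (volume.restrict (Ioi (0:ℝ))) := fun x y =>
    integrableOn_gd (by linarith) (by linarith) (sq_nonneg _)
  have hpt : ∀ t, wr (-s) t * DT X t = (X.card : ℝ) ^ 2 * (wr (-s) t * (1 - Ag d t)) -
      ∑ x ∈ X, ∑ y ∈ X, wr (-s) t * (1 - Real.exp (-(t * dist x y ^ 2))) := by
    intro t
    unfold DT
    have : avg2 (fun x y : S d => Real.exp (-(t * dist x y ^ 2))) = Ag d t := rfl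
    rw [this]
    simp only [← Finset.mul_sum, Finset.sum_sub_distrib, Finset.sum_const, nsmul_eq_mul, mul_one]
    ring
  have i3 : Integrable (fun t => (X.card : ℝ) ^ 2 * (wr (-s) t * (1 - Ag d t)))
      (volume.restrict (Ioi (0:ℝ))) := i1.const_mul _
  have i4 : Integrable (fun t => ∑ x ∈ X, ∑ y ∈ X,
      wr (-s) t * (1 - Real.exp (-(t * dist x y ^ 2)))) (volume.restrict (Ioi (0:ℝ))) :=
    integrable_finsetSum _ fun x _ => integrable_finsetSum _ fun y _ => i2 x y
  constructor
  · simp only [hpt]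
    exact i3.sub i4
  · simp only [hpt]
    rw [integral_sub i3 i4, integral_const_mul, integral_finsetSum _ fun x _ =>
      integrable_finsetSum _ fun y _ => i2 x y, e1, en_eq (by linarith)]
    have h1 : ∀ x ∈ X, ∫ t in Ioi (0:ℝ), ∑ y ∈ X, wr (-s) t * (1 - Real.exp (-(t * dist x y ^ 2))) =
        ∑ y ∈ X, ∫ t in Ioi (0:ℝ), wr (-s) t * (1 - Real.exp (-(t * dist x y ^ 2))) := fun x _ =>
      integral_finsetSum _ fun y _ => i2 x y
    rw [Finset.sum_congr rfl h1]
    have h2 : ∀ x y : S d, K s x y = ca (-s) *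
        ∫ t in Ioi (0:ℝ), wr (-s) t * (1 - Real.exp (-(t * dist x y ^ 2))) := fun x y =>
      gauss_decomp (by linarith) (by linarith) dist_nonneg
    simp only [h2, ← Finset.mul_sum]
    ring

theorem gap_identity (hd : 1 ≤ d) (hs : -2 < s) (hs0 : s < 0) (X : Finset (S d)) :
    0 ≤ (X.card : ℝ) ^ 2 * V s d - en s X ∧
    ∫⁻ t in Ioi (0:ℝ), wt (-s) t * ENNReal.ofReal (DT X t) =
      ENNReal.ofReal (((X.card : ℝ) ^ 2 * V s d - en s X) / ca (-s)) := by
  obtain ⟨i1, e1⟩ := gap_real hs hs0 X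
  have hca : 0 < ca (-s) := ca_pos (by linarith) (by linarith)
  have hnn : ∀ t ∈ Ioi (0:ℝ), 0 ≤ wr (-s) t * DT X t := fun t ht =>
    mul_nonneg (Real.rpow_nonneg (le_of_lt ht) _) (DT_nonneg hd X ht)
  constructor
  · rw [e1]
    exact mul_nonneg hca.le (setIntegral_nonneg measurableSet_Ioi hnn)
  · rw [e1, mul_div_cancel_left₀ _ hca.ne', ofReal_integral_eq_lintegral_ofReal i1]
    · refine setLIntegral_congr_fun measurableSet_Ioi fun t ht => ?_
      have h0 : 0 ≤ wr (-s) t := Real.rpow_nonneg (le_of_lt ht) _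
      rw [ENNReal.ofReal_mul h0]
      rfl
    · filter_upwards [ae_restrict_mem measurableSet_Ioi] with t ht
      exact hnn t ht

theorem L_nonneg (hd : 1 ≤ d) (hs : -2 < s) (hs0 : s < 0) (L : ℝ)
    (hL : ∃ᶠ N : ℕ in atTop, gap s d N ≤ L * (N : ℝ) ^ (1 + s / d)) : 0 ≤ L := by
  obtain ⟨N, hN, h⟩ := hL.forall_exists_of_atTop 1
  have hV : 0 ≤ V s d := by
    have x : S d := ⟨EuclideanSpace.single 0 (1:ℝ), by simp⟩
    rw [← integral_K x]
    exact integral_nonneg fun y => K_nonneg s x y
  have h1 : Emax s d N ≤ (N : ℝ) ^ 2 * V s d := by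
    unfold Emax
    refine Real.sSup_le ?_ (by positivity)
    rintro e ⟨Y, hY, rfl⟩
    have := (gap_identity hd hs hs0 Y).1
    rw [hY] at this
    linarith
  have h2 : 0 ≤ gap s d N := by unfold gap; linarith
  have h3 : 0 < (N : ℝ) ^ (1 + s / d) := Real.rpow_pos_of_pos (by exact_mod_cast hN) _
  by_contra hneg
  push Not at hneg
  nlinarith

end Helper23.Riesz
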