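import Pool.Agent.Helper23.Riesz.Defs4
import Pool.Agent.Helper94.Riesz.Mis

/-!
# Riesz energy, `-2 < s < 0`: the gap is nonnegative

The kernel `|x - y|^α`, `0 < α < 2`, is conditionally negative definite on the sphere.
-/

set_option autoImplicit false
open MeasureTheory Set Filter Topology
open scoped ENNReal NNReal

namespace Helper23.Riesz

namespace GapNN

section general

variable {X : Type*} [MeasurableSpace X]

/-- the quadratic functional of the signed measure `μ - ν` with kernel `k` -/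
noncomputable def QQ (μ ν : Measure X) (k : X × X → ℝ) : ℝ :=
  ∫ z, k z ∂(μ.prod μ) - ∫ z, k z ∂(μ.prod ν) - ∫ z, k z ∂(ν.prod μ) + ∫ z, k z ∂(ν.prod ν)

lemma integrable_of_bound {Y : Type*} [MeasurableSpace Y] (ρ : Measure Y) [IsFiniteMeasure ρ]
    {k : Y → ℝ} (hk : Measurable k) {C : ℝ} (hC : ∀ z, |k z| ≤ C) : Integrable k ρ :=
  Integrable.of_bound hk.aestronglyMeasurable C (Eventually.of_forall fun z => by
    rw [Real.norm_eq_abs]; exact hC z)

variable (μ ν : Measure X) [IsFiniteMeasure μ] [IsFiniteMeasure ν]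

lemma QQ_mul (a : X → ℝ) :
    QQ μ ν (fun z => a z.1 * a z.2) = (∫ x, a x ∂μ - ∫ x, a x ∂ν) ^ 2 := by
  unfold QQ
  rw [integral_prod_mul a a, integral_prod_mul a a, integral_prod_mul a a, integral_prod_mul a a]
  ring

lemma QQ_const (c : ℝ) (h : μ univ = ν univ) : QQ μ ν (fun _ => c) = 0 := by
  unfold QQ
  simp only [integral_const, Measure.real, smul_eq_mul, ← univ_prod_univ, Measure.prod_prod, h]
  ring

omit [IsFiniteMeasure μ] [IsFiniteMeasure ν] in
lemma QQ_const_mul (c : ℝ) (k : X × X → ℝ) : QQ μ ν (fun z => c * k z) = c * QQ μ ν k := by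
  unfold QQ
  simp only [integral_const_mul]
  ring

lemma QQ_sub {k l : X × X → ℝ} (hk : Measurable k) (hl : Measurable l) {C D : ℝ}
    (hC : ∀ z, |k z| ≤ C) (hD : ∀ z, |l z| ≤ D) :
    QQ μ ν (fun z => k z - l z) = QQ μ ν k - QQ μ ν l := by
  unfold QQ
  rw [integral_sub (integrable_of_bound _ hk hC) (integrable_of_bound _ hl hD),
    integral_sub (integrable_of_bound _ hk hC) (integrable_of_bound _ hl hD),
    integral_sub (integrable_of_bound _ hk hC) (integrable_of_bound _ hl hD),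
    integral_sub (integrable_of_bound _ hk hC) (integrable_of_bound _ hl hD)]
  ring

lemma QQ_sum {ι : Type*} (s : Finset ι) (k : ι → X × X → ℝ) (hk : ∀ i ∈ s, Measurable (k i))
    (C : ι → ℝ) (hC : ∀ i ∈ s, ∀ z, |k i z| ≤ C i) :
    QQ μ ν (fun z => ∑ i ∈ s, k i z) = ∑ i ∈ s, QQ μ ν (k i) := by
  unfold QQ
  rw [integral_finsetSum _ fun i hi => integrable_of_bound _ (hk i hi) (hC i hi),
    integral_finsetSum _ fun i hi => integrable_of_bound _ (hk i hi) (hC i hi),
    integral_finsetSum _ fun i hi => integrable_of_bound _ (hk i hi) (hC i hi),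
    integral_finsetSum _ fun i hi => integrable_of_bound _ (hk i hi) (hC i hi)]
  rw [← Finset.sum_sub_distrib, ← Finset.sum_sub_distrib, ← Finset.sum_add_distrib]

lemma QQ_tendsto (k : ℕ → X × X → ℝ) (l : X × X → ℝ) (hk : ∀ n, Measurable (k n)) (C : ℝ)
    (hC : ∀ n z, |k n z| ≤ C) (h : ∀ z, Tendsto (fun n => k n z) atTop (𝓝 (l z))) :
    Tendsto (fun n => QQ μ ν (k n)) atTop (𝓝 (QQ μ ν l)) := by
  have key : ∀ (ρ : Measure (X × X)) [IsFiniteMeasure ρ],
      Tendsto (fun n => ∫ z, k n z ∂ρ) atTop (𝓝 (∫ z, l z ∂ρ)) := by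
    intro ρ _
    refine tendsto_integral_of_dominated_convergence (fun _ => C)
      (fun n => (hk n).aestronglyMeasurable) (integrable_const _) ?_ ?_
    · intro n
      exact Eventually.of_forall fun z => by rw [Real.norm_eq_abs]; exact hC n z
    · exact Eventually.of_forall h
  unfold QQ
  exact (((key _).sub (key _)).sub (key _)).add (key _)

end general

section sphere

variable {d : ℕ} (μ ν : Measure (S d)) [IsFiniteMeasure μ] [IsFiniteMeasure ν]

lemma abs_coord_le (x : S d) (i : Fin (d+1)) : |(x : E d) i| ≤ 1 := by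
  have h1 : ‖(x : E d)‖ = 1 := by simp
  have := PiLp.norm_apply_le (x : E d) i
  rw [h1, Real.norm_eq_abs] at this
  exact this

lemma measurable_coord (i : Fin (d+1)) : Measurable fun x : S d => (x : E d) i := by
  have : Continuous fun x : S d => (x : E d) i := by fun_prop
  exact this.measurable

/-- inner product of two points of the sphere -/
noncomputable def ip (z : S d × S d) : ℝ := ∑ i, (z.1 : E d) i * (z.2 : E d) i

lemma dist_sq_eq (z : S d × S d) : dist z.1 z.2 ^ 2 = 2 - 2 * ip z := by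
  have h1 : ‖(z.1 : E d)‖ = 1 := by simp
  have h2 : ‖(z.2 : E d)‖ = 1 := by simp
  have h3 : inner ℝ (z.1 : E d) (z.2 : E d) = ip z := by
    rw [PiLp.inner_apply, ip]
    refine Finset.sum_congr rfl fun i _ => ?_
    simp [mul_comm]
  rw [Subtype.dist_eq, dist_eq_norm, norm_sub_sq_real, h1, h2, h3]
  ring

lemma abs_ip_le (z : S d × S d) : |ip z| ≤ 1 := by
  have h1 : ‖(z.1 : E d)‖ = 1 := by simp
  have h2 : ‖(z.2 : E d)‖ = 1 := by simp
  have h3 : inner ℝ (z.1 : E d) (z.2 : E d) = ip z := by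
    rw [PiLp.inner_apply, ip]
    refine Finset.sum_congr rfl fun i _ => ?_
    simp [mul_comm]
  rw [← h3]
  calc |inner ℝ (z.1 : E d) (z.2 : E d)| ≤ ‖(z.1 : E d)‖ * ‖(z.2 : E d)‖ :=
        abs_real_inner_le_norm _ _
    _ = 1 := by rw [h1, h2, one_mul]

lemma measurable_ip : Measurable (ip : S d × S d → ℝ) := by
  unfold ip
  refine Finset.measurable_sum _ fun i _ => ?_
  exact ((measurable_coord i).comp measurable_fst).mul ((measurable_coord i).comp measurable_snd)

/-- monomials -/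
noncomputable def mono {n : ℕ} (p : Fin n → Fin (d+1)) (x : S d) : ℝ := ∏ j, (x : E d) (p j)

lemma abs_mono_le {n : ℕ} (p : Fin n → Fin (d+1)) (x : S d) : |mono p x| ≤ 1 := by
  unfold mono
  rw [Finset.abs_prod]
  exact Finset.prod_le_one (fun _ _ => abs_nonneg _) fun j _ => abs_coord_le x _

lemma measurable_mono {n : ℕ} (p : Fin n → Fin (d+1)) : Measurable (mono p) := by
  unfold mono
  exact Finset.measurable_prod _ fun j _ => measurable_coord (p j)

lemma QQ_pow_nonneg (n : ℕ) : 0 ≤ QQ μ ν (fun z => ip z ^ n) := by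
  have h1 : (fun z : S d × S d => ip z ^ n) = fun z => ∑ p : Fin n → Fin (d+1),
      mono p z.1 * mono p z.2 := by
    funext z
    unfold ip mono
    rw [Fintype.sum_pow]
    refine Finset.sum_congr rfl fun p _ => ?_
    rw [← Finset.prod_mul_distrib]
  have hm : ∀ p ∈ (Finset.univ : Finset (Fin n → Fin (d+1))),
      Measurable (fun z : S d × S d => mono p z.1 * mono p z.2) := fun p _ =>
    ((measurable_mono p).comp measurable_fst).mul ((measurable_mono p).comp measurable_snd)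
  have hb : ∀ p ∈ (Finset.univ : Finset (Fin n → Fin (d+1))), ∀ z : S d × S d,
      |mono p z.1 * mono p z.2| ≤ 1 := by
    intro p _ z
    rw [abs_mul]
    exact mul_le_one₀ (abs_mono_le p _) (abs_nonneg _) (abs_mono_le p _)
  rw [h1, QQ_sum μ ν Finset.univ (fun p z => mono p z.1 * mono p z.2) hm (fun _ => 1) hb]
  refine Finset.sum_nonneg fun p _ => ?_
  rw [QQ_mul μ ν (mono p)]
  exact sq_nonneg _

lemma QQ_resolvent_nonneg {t : ℝ} (ht : 0 < t) :
    0 ≤ QQ μ ν (fun z => (t + dist z.1 z.2 ^ 2)⁻¹) := by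
  have hq : (0:ℝ) < t + 2 := by linarith
  set k : ℕ → S d × S d → ℝ := fun n z => ∑ m ∈ Finset.range n, (2 ^ m / (t + 2) ^ (m+1)) * ip z ^ m
    with hk
  have hr : |2 / (t+2)| < 1 := by
    rw [abs_of_pos (by positivity), div_lt_one hq]
    linarith
  have hsum : ∀ z : S d × S d, HasSum (fun m : ℕ => (2 ^ m / (t + 2) ^ (m+1)) * ip z ^ m)
      ((t + dist z.1 z.2 ^ 2)⁻¹) := by
    intro z
    have h1 : |2 / (t+2) * ip z| < 1 := by
      rw [abs_mul]
      calc |2/(t+2)| * |ip z| ≤ |2/(t+2)| * 1 := by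
            exact mul_le_mul_of_nonneg_left (abs_ip_le z) (abs_nonneg _)
        _ < 1 := by rw [mul_one]; exact hr
    have h2 := (hasSum_geometric_of_abs_lt_one h1).mul_left ((t+2)⁻¹)
    have h3 : (t + dist z.1 z.2 ^ 2)⁻¹ = (t+2)⁻¹ * (1 - 2 / (t+2) * ip z)⁻¹ := by
      rw [dist_sq_eq, ← mul_inv]
      congr 1
      field_simp
      ring
    rw [h3]
    refine h2.congr_fun ?_
    intro m
    rw [mul_pow, div_pow, pow_succ]
    field_simp
  have hbd : ∀ n z, |k n z| ≤ t⁻¹ := by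
    intro n z
    have h1 : ∑ m ∈ Finset.range n, (2 ^ m / (t + 2) ^ (m+1)) ≤ t⁻¹ := by
      have h2 := (hasSum_geometric_of_abs_lt_one hr).mul_left ((t+2)⁻¹)
      have h3 : (t+2)⁻¹ * (1 - 2 / (t+2))⁻¹ = t⁻¹ := by
        rw [← mul_inv]
        congr 1
        field_simp
        ring
      rw [h3] at h2
      have h4 := sum_le_hasSum (Finset.range n) (fun m _ => by positivity) h2
      refine le_trans (le_of_eq ?_) h4
      refine Finset.sum_congr rfl fun m _ => ?_
      rw [div_pow, pow_succ]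
      field_simp
    refine le_trans (Finset.abs_sum_le_sum_abs _ _) (le_trans ?_ h1)
    refine Finset.sum_le_sum fun m _ => ?_
    rw [abs_mul, abs_of_nonneg (by positivity : (0:ℝ) ≤ 2 ^ m / (t+2) ^ (m+1)), abs_pow]
    exact mul_le_of_le_one_right (by positivity) (pow_le_one₀ (abs_nonneg _) (abs_ip_le z))
  have hmeas : ∀ n, Measurable (k n) := by
    intro n
    refine Finset.measurable_sum _ fun m _ => ?_
    exact (measurable_ip.pow_const m).const_mul _
  have ht2 := QQ_tendsto μ ν k (fun z => (t + dist z.1 z.2 ^ 2)⁻¹) hmeas t⁻¹ hbd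
    (fun z => (hsum z).tendsto_sum_nat)
  refine ge_of_tendsto ht2 (Eventually.of_forall fun n => ?_)
  rw [hk]
  simp only
  rw [QQ_sum (μ := μ) (ν := ν) (Finset.range n)
    (fun m z => (2 ^ m / (t + 2) ^ (m+1)) * ip z ^ m)
    (fun m _ => (measurable_ip.pow_const m).const_mul _) (fun m => 2 ^ m / (t + 2) ^ (m+1)) ?_]
  · refine Finset.sum_nonneg fun m _ => ?_
    rw [QQ_const_mul]
    exact mul_nonneg (by positivity) (QQ_pow_nonneg μ ν m)
  · intro m _ z
    rw [abs_mul, abs_of_nonneg (by positivity : (0:ℝ) ≤ 2 ^ m / (t+2) ^ (m+1)), abs_pow]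
    exact mul_le_of_le_one_right (by positivity) (pow_le_one₀ (abs_nonneg _) (abs_ip_le z))

omit [IsFiniteMeasure μ] [IsFiniteMeasure ν] in
lemma integral_four {Y : Type*} [MeasurableSpace Y] (ρ : Measure Y) {a b c e : Y → ℝ}
    (ha : Integrable a ρ) (hb : Integrable b ρ) (hc : Integrable c ρ) (he : Integrable e ρ) :
    ∫ t, (a t - b t - c t + e t) ∂ρ =
      (∫ t, a t ∂ρ) - (∫ t, b t ∂ρ) - (∫ t, c t ∂ρ) + (∫ t, e t ∂ρ) := by
  have h1 : Integrable (fun t => a t - b t) ρ := ha.sub hb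
  have h2 : Integrable (fun t => a t - b t - c t) ρ := h1.sub hc
  rw [integral_add h2 he, integral_sub h1 hc, integral_sub ha hb]

open Real in
lemma QQ_dist_nonpos {p : ℝ} (hp : p ∈ Ioo (0:ℝ) 1) (h : μ univ = ν univ) :
    QQ μ ν (fun z : S d × S d => (dist z.1 z.2 ^ 2) ^ p) ≤ 0 := by
  set c : ℝ := (∫ t in Ioi 0, rpowIntegrand₀₁ p t 1)⁻¹ with hcdef
  have hc : 0 ≤ c := inv_nonneg.2 (integral_rpowIntegrand₀₁_one_pos hp).le
  set r : ℝ → S d × S d → ℝ := fun t z => rpowIntegrand₀₁ p t (dist z.1 z.2 ^ 2) with hr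
  have hrep : ∀ z : S d × S d, (dist z.1 z.2 ^ 2) ^ p = c * ∫ t in Ioi 0, r t z := fun z =>
    rpow_eq_const_mul_integral hp (sq_nonneg _)
  have hmeas : Measurable (fun q : (S d × S d) × ℝ => r q.2 q.1) := by
    simp only [hr, rpowIntegrand₀₁]
    have h1 : Measurable fun q : (S d × S d) × ℝ => q.2 := measurable_snd
    have h2 : Measurable fun q : (S d × S d) × ℝ => dist q.1.1 q.1.2 ^ 2 :=
      (measurable_dist.comp measurable_fst).pow_const 2
    exact (h1.pow_const p).mul (h1.inv.sub (h1.add h2).inv)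
  have hle : ∀ z : S d × S d, dist z.1 z.2 ^ 2 ≤ 4 := by
    intro z
    have := dist_le_two z.1 z.2
    have h0 : 0 ≤ dist z.1 z.2 := dist_nonneg
    nlinarith
  have hint : ∀ (ρ : Measure (S d × S d)) [IsFiniteMeasure ρ],
      Integrable (fun q : (S d × S d) × ℝ => r q.2 q.1) (ρ.prod (volume.restrict (Ioi 0))) := by
    intro ρ _
    have hg : Integrable (fun q : (S d × S d) × ℝ => rpowIntegrand₀₁ p q.2 4)
        (ρ.prod (volume.restrict (Ioi 0))) :=
      (integrableOn_rpowIntegrand₀₁_Ioi hp (by norm_num : (0:ℝ) ≤ 4)).comp_snd ρ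
    refine hg.mono' hmeas.aestronglyMeasurable ?_
    have hae : ∀ᵐ q ∂(ρ.prod ((volume : Measure ℝ).restrict (Ioi 0))), q.2 ∈ Ioi (0:ℝ) := by
      have h1 : ∀ᵐ t ∂((volume : Measure ℝ).restrict (Ioi 0)), t ∈ Ioi (0:ℝ) :=
        ae_restrict_mem measurableSet_Ioi
      exact Measure.quasiMeasurePreserving_snd.ae h1
    filter_upwards [hae] with q hq
    have hq0 : (0:ℝ) ≤ q.2 := le_of_lt hq
    rw [Real.norm_of_nonneg (rpowIntegrand₀₁_nonneg hp.1 hq0 (sq_nonneg _))]
    exact rpowIntegrand₀₁_monotoneOn hp hq0 (mem_Ici.2 (sq_nonneg _))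
      (mem_Ici.2 (by norm_num : (0:ℝ) ≤ 4)) (hle _)
  have hswap : ∀ (ρ : Measure (S d × S d)) [IsFiniteMeasure ρ],
      ∫ z, (dist z.1 z.2 ^ 2) ^ p ∂ρ = c * ∫ t in Ioi 0, ∫ z, r t z ∂ρ := by
    intro ρ _
    simp only [hrep]
    rw [integral_const_mul, integral_integral_swap (hint ρ)]
  have hint2 : ∀ (ρ : Measure (S d × S d)) [IsFiniteMeasure ρ],
      Integrable (fun t => ∫ z, r t z ∂ρ) ((volume : Measure ℝ).restrict (Ioi 0)) := by
    intro ρ _
    exact (hint ρ).integral_prod_right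
  have hQ : QQ μ ν (fun z : S d × S d => (dist z.1 z.2 ^ 2) ^ p) =
      c * ∫ t in Ioi 0, QQ μ ν (r t) := by
    have h1 : ∫ t in Ioi 0, QQ μ ν (r t) = (∫ t in Ioi 0, ∫ z, r t z ∂(μ.prod μ)) -
        (∫ t in Ioi 0, ∫ z, r t z ∂(μ.prod ν)) - (∫ t in Ioi 0, ∫ z, r t z ∂(ν.prod μ)) +
        (∫ t in Ioi 0, ∫ z, r t z ∂(ν.prod ν)) := by
      have g := integral_four ((volume : Measure ℝ).restrict (Ioi 0)) (hint2 (μ.prod μ))
        (hint2 (μ.prod ν)) (hint2 (ν.prod μ)) (hint2 (ν.prod ν))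
      exact g
    rw [h1]
    unfold QQ
    rw [hswap, hswap, hswap, hswap]
    ring
  rw [hQ]
  refine mul_nonpos_of_nonneg_of_nonpos hc (setIntegral_nonpos measurableSet_Ioi fun t ht => ?_)
  have ht0 : 0 < t := ht
  have hb : ∀ z : S d × S d, |(t + dist z.1 z.2 ^ 2)⁻¹| ≤ t⁻¹ := by
    intro z
    have : 0 ≤ dist z.1 z.2 ^ 2 := sq_nonneg _
    rw [abs_of_nonneg (by positivity)]
    exact inv_anti₀ ht0 (by linarith)
  have hm : Measurable fun z : S d × S d => (t + dist z.1 z.2 ^ 2)⁻¹ :=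
    ((measurable_dist.pow_const 2).const_add t).inv
  have e1 : QQ μ ν (r t) = t ^ p * QQ μ ν (fun z : S d × S d => t⁻¹ - (t + dist z.1 z.2 ^ 2)⁻¹) := by
    rw [← QQ_const_mul]
    rfl
  have e2 := QQ_sub μ ν (k := fun _ : S d × S d => t⁻¹)
    (l := fun z : S d × S d => (t + dist z.1 z.2 ^ 2)⁻¹) measurable_const hm
    (C := |t⁻¹|) (D := t⁻¹) (fun _ => le_rfl) hb
  rw [e1, e2, QQ_const μ ν _ h, zero_sub]
  have e3 := QQ_resolvent_nonneg μ ν ht0
  have e4 : 0 ≤ t ^ p := Real.rpow_nonneg ht0.le _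
  nlinarith

end sphere

end GapNN

open GapNN in
lemma Im_eq_prod {s : ℝ} {d : ℕ} (hs0 : s < 0) (μ ν : Measure (S d)) [IsFiniteMeasure μ]
    [IsFiniteMeasure ν] : Im s μ ν = ∫ z : S d × S d, (dist z.1 z.2) ^ (-s) ∂(μ.prod ν) := by
  unfold Im
  have hm : Measurable fun z : S d × S d => (dist z.1 z.2) ^ (-s) := measurable_dist.pow_const _
  rw [integral_prod]
  refine integrable_of_bound _ hm (C := 2 ^ (-s)) fun z => ?_
  rw [abs_of_nonneg (Real.rpow_nonneg dist_nonneg _)]
  exact Real.rpow_le_rpow dist_nonneg (dist_le_two _ _) (by linarith)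

open GapNN in
/-- the gap is nonnegative -/
theorem gap_nonneg {s : ℝ} {d : ℕ} (_hd : 1 ≤ d) (hs : -2 < s) (hs0 : s < 0) (μ : Measure (S d))
    (N : ℝ) (hN : 0 ≤ N) (hμ : μ univ = ENNReal.ofReal N) : Im s μ μ ≤ N ^ 2 * V s d := by
  have hprob := isProbabilityMeasure_sig d
  have hfin : IsFiniteMeasure μ := ⟨by rw [hμ]; exact ENNReal.ofReal_lt_top⟩
  have hreal : μ.real univ = N := by
    rw [Measure.real, hμ, ENNReal.toReal_ofReal hN]
  set ν : Measure (S d) := ENNReal.ofReal N • sig d with hν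
  have hνfin : IsFiniteMeasure ν := by
    refine ⟨?_⟩
    rw [hν, Measure.smul_apply, measure_univ, smul_eq_mul, mul_one]
    exact ENNReal.ofReal_lt_top
  have hνu : μ univ = ν univ := by
    rw [hμ, hν, Measure.smul_apply, measure_univ, smul_eq_mul, mul_one]
  have hpot : ∀ x : S d, ∫ y, (dist x y) ^ (-s) ∂ν = N * V s d := by
    intro x
    rw [hν, integral_smul_measure, ENNReal.toReal_ofReal hN, smul_eq_mul]
    congr 1
    exact integral_K x
  have e1 : Im s μ ν = N ^ 2 * V s d := by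
    unfold Im
    simp only [hpot]
    rw [integral_const, hreal, smul_eq_mul]
    ring
  have e2 : Im s ν ν = N ^ 2 * V s d := by
    unfold Im
    simp only [hpot]
    rw [integral_const, Measure.real, ← hνu, hμ, ENNReal.toReal_ofReal hN, smul_eq_mul]
    ring
  have e3 : Im s ν μ = N ^ 2 * V s d := by
    rw [← e1, Im_eq_prod hs0, Im_eq_prod hs0]
    rw [← integral_prod_swap]
    simp only [Prod.fst_swap, Prod.snd_swap, dist_comm]
  have key := QQ_dist_nonpos μ ν (p := -s/2) ⟨by linarith, by linarith⟩ hνu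
  have hK : (fun z : S d × S d => (dist z.1 z.2 ^ 2) ^ (-s/2)) =
      fun z : S d × S d => (dist z.1 z.2) ^ (-s) := by
    funext z
    rw [← Real.rpow_natCast, ← Real.rpow_mul dist_nonneg]
    congr 1
    push_cast
    ring
  rw [hK] at key
  unfold QQ at key
  rw [← Im_eq_prod hs0, ← Im_eq_prod hs0, ← Im_eq_prod hs0, ← Im_eq_prod hs0, e1, e2, e3] at key
  linarith

end Helper23.Riesz
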