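import Pool.Agent.Helper95.Riesz.SDefs

/-!
# Riesz energy, source side, module PD: Gaussians are positive definite
-/

set_option autoImplicit false
open MeasureTheory Set Filter Topology
open scoped ENNReal NNReal FourierTransform SchwartzMap ComplexConjugate

namespace Helper23.Riesz

variable {V : Type*} [NormedAddCommGroup V] [InnerProductSpace ℝ V] [FiniteDimensional ℝ V]
  [MeasurableSpace V] [BorelSpace V]

namespace PDId

/-- characters -/
noncomputable def ech (x ξ : V) : ℂ :=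
  Complex.exp (((-2 * Real.pi * inner ℝ x ξ : ℝ) : ℂ) * Complex.I)

omit [FiniteDimensional ℝ V] [MeasurableSpace V] [BorelSpace V] in
lemma norm_ech (x ξ : V) : ‖ech x ξ‖ = 1 := by
  unfold ech
  exact Complex.norm_exp_ofReal_mul_I _

omit [FiniteDimensional ℝ V] [MeasurableSpace V] [BorelSpace V] in
lemma conj_ech (x ξ : V) : conj (ech x ξ) = ech (-x) ξ := by
  unfold ech
  rw [← Complex.exp_conj]
  congr 1
  rw [map_mul, Complex.conj_I, Complex.conj_ofReal]
  rw [inner_neg_left]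
  push_cast
  ring

omit [FiniteDimensional ℝ V] [MeasurableSpace V] [BorelSpace V] in
lemma ech_mul (x y ξ : V) : ech x ξ * ech y ξ = ech (x + y) ξ := by
  unfold ech
  rw [← Complex.exp_add]
  congr 1
  rw [inner_add_left]
  push_cast
  ring

omit [FiniteDimensional ℝ V] [MeasurableSpace V] [BorelSpace V] in
lemma continuous_ech : Continuous fun p : V × V => ech p.1 p.2 := by
  unfold ech
  fun_prop

/-- the Fourier transform of the spectral density -/
lemma fourier_gam {t : ℝ} (ht : 0 < t) (v : V) :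
    ∫ ξ : V, (gam t ξ : ℂ) * ech v ξ = (Real.exp (-(t * ‖v‖ ^ 2)) : ℂ) := by
  have hp := Real.pi_pos
  have hb : 0 < ((Real.pi ^ 2 / t : ℝ) : ℂ).re := by
    rw [Complex.ofReal_re]; positivity
  have h1 := fourier_gaussian_innerProductSpace hb v
  rw [Real.fourier_eq'] at h1
  have h2 : ∀ ξ : V, (gam t ξ : ℂ) * ech v ξ =
      (((Real.pi / t) ^ ((Module.finrank ℝ V : ℝ) / 2) : ℝ) : ℂ) *
      (Complex.exp (((-2 * Real.pi * inner ℝ ξ v : ℝ) : ℂ) * Complex.I) •
        Complex.exp (-((Real.pi ^ 2 / t : ℝ) : ℂ) * (‖ξ‖ : ℂ) ^ 2)) := by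
    intro ξ
    unfold gam ech
    rw [real_inner_comm]
    push_cast
    rw [smul_eq_mul]
    have : Complex.exp (-((Real.pi : ℂ) ^ 2 * (‖ξ‖ : ℂ) ^ 2 / t)) =
        Complex.exp (-((Real.pi : ℂ) ^ 2 / t) * (‖ξ‖ : ℂ) ^ 2) := by
      congr 1; ring
    rw [this]
    ring
  simp only [h2]
  rw [integral_const_mul, h1]
  have h3 : (Real.pi : ℂ) / ((Real.pi ^ 2 / t : ℝ) : ℂ) = ((t / Real.pi : ℝ) : ℂ) := by
    push_cast
    have : (Real.pi : ℂ) ≠ 0 := by exact_mod_cast hp.ne'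
    have : (t : ℂ) ≠ 0 := by exact_mod_cast ht.ne'
    field_simp
  rw [h3]
  have h4 : (((t / Real.pi : ℝ) : ℂ)) ^ ((Module.finrank ℝ V : ℂ) / 2) =
      (((t / Real.pi) ^ ((Module.finrank ℝ V : ℝ) / 2) : ℝ) : ℂ) := by
    rw [Complex.ofReal_cpow (by positivity)]
    congr 1
    push_cast
    ring
  rw [h4, ← mul_assoc, ← Complex.ofReal_mul, ← Real.mul_rpow (by positivity) (by positivity)]
  have h5 : Real.pi / t * (t / Real.pi) = 1 := by field_simp
  rw [h5, Real.one_rpow, Complex.ofReal_one, one_mul, Complex.ofReal_exp]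
  congr 1
  push_cast
  have : (Real.pi : ℂ) ≠ 0 := by exact_mod_cast hp.ne'
  have : (t : ℂ) ≠ 0 := by exact_mod_cast ht.ne'
  field_simp

omit [FiniteDimensional ℝ V] [BorelSpace V] in
lemma chi_eq (μ : Measure V) (ξ : V) : chi μ ξ = ∫ x, ech x ξ ∂μ := rfl

omit [FiniteDimensional ℝ V] [BorelSpace V] in
lemma norm_chi_le (μ : Measure V) [IsFiniteMeasure μ] (ξ : V) : ‖chi μ ξ‖ ≤ μ.real univ := by
  rw [chi_eq]
  refine (norm_integral_le_integral_norm _).trans ?_
  simp only [norm_ech, integral_const, smul_eq_mul, mul_one]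
  exact le_rfl

/-- mutual Gaussian energy by Fourier transforms -/
lemma Qt_eq {t : ℝ} (ht : 0 < t) (μ ν : Measure V) [IsFiniteMeasure μ] [IsFiniteMeasure ν] :
    Integrable (fun ξ : V => (gam t ξ : ℂ) * (chi μ ξ * conj (chi ν ξ))) ∧
    ∫ ξ : V, (gam t ξ : ℂ) * (chi μ ξ * conj (chi ν ξ)) = (Qt t μ ν : ℂ) := by
  have hprod : ∀ ξ : V, chi μ ξ * conj (chi ν ξ) = ∫ z : V × V, ech (z.1 - z.2) ξ ∂(μ.prod ν) := by
    intro ξ
    rw [chi_eq, chi_eq, ← integral_conj, ← integral_prod_mul]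
    refine integral_congr_ae (Eventually.of_forall fun z => ?_)
    simp only [conj_ech, ech_mul, sub_eq_add_neg]
  have hcont : Continuous fun p : V × (V × V) => (gam t p.1 : ℂ) * ech (p.2.1 - p.2.2) p.1 := by
    refine (Complex.continuous_ofReal.comp ((continuous_gam t).comp continuous_fst)).mul ?_
    exact continuous_ech.comp ((((continuous_fst.comp continuous_snd).sub
      (continuous_snd.comp continuous_snd))).prodMk continuous_fst)
  have hint : Integrable (fun p : V × (V × V) => (gam t p.1 : ℂ) * ech (p.2.1 - p.2.2) p.1)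
      ((volume : Measure V).prod (μ.prod ν)) := by
    have hg : Integrable (fun p : V × (V × V) => gam t p.1)
        ((volume : Measure V).prod (μ.prod ν)) := (integrable_gam ht).comp_fst (μ.prod ν)
    refine hg.mono' hcont.aestronglyMeasurable (Eventually.of_forall fun p => ?_)
    rw [norm_mul, norm_ech, mul_one, Complex.norm_real, Real.norm_of_nonneg (gam_nonneg ht _)]
  have heq : ∀ ξ : V, (gam t ξ : ℂ) * (chi μ ξ * conj (chi ν ξ)) =
      ∫ z : V × V, (gam t ξ : ℂ) * ech (z.1 - z.2) ξ ∂(μ.prod ν) := by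
    intro ξ
    rw [hprod, integral_const_mul]
  constructor
  · simp only [heq]
    exact hint.integral_prod_left
  · simp only [heq]
    rw [integral_integral_swap hint]
    simp only [fourier_gam ht]
    have hr : Integrable (fun z : V × V => Real.exp (-(t * dist z.1 z.2 ^ 2))) (μ.prod ν) := by
      refine Integrable.of_bound (by fun_prop) 1 (Eventually.of_forall fun z => ?_)
      rw [Real.norm_of_nonneg (Real.exp_pos _).le]
      exact Real.exp_le_one_iff.2 (by have := sq_nonneg (dist z.1 z.2); nlinarith)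
    rw [Qt, ← integral_prod _ hr, ← integral_complex_ofReal]
    refine integral_congr_ae (Eventually.of_forall fun z => ?_)
    simp only [dist_eq_norm]

lemma int_four {Y : Type*} [MeasurableSpace Y] {ρ : Measure Y} {a b c e : Y → ℂ}
    (ha : Integrable a ρ) (hb : Integrable b ρ) (hc : Integrable c ρ) (he : Integrable e ρ) :
    ∫ t, (a t - b t - c t + e t) ∂ρ =
      (∫ t, a t ∂ρ) - (∫ t, b t ∂ρ) - (∫ t, c t ∂ρ) + (∫ t, e t ∂ρ) := by
  have h1 : Integrable (fun t => a t - b t) ρ := ha.sub hb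
  have h2 : Integrable (fun t => a t - b t - c t) ρ := h1.sub hc
  rw [integral_add h2 he, integral_sub h1 hc, integral_sub ha hb]

end PDId

open PDId in
theorem pd_identity (μ ν : Measure V) [IsFiniteMeasure μ] [IsFiniteMeasure ν] {t : ℝ}
    (ht : 0 < t) : 0 ≤ Qt t μ μ - 2 * Qt t μ ν + Qt t ν ν ∧
      ENNReal.ofReal (Qt t μ μ - 2 * Qt t μ ν + Qt t ν ν) =
        ∫⁻ ξ : V, ENNReal.ofReal (gam t ξ) * ENNReal.ofReal (‖chi μ ξ - chi ν ξ‖ ^ 2) := by
  obtain ⟨i1, e1⟩ := Qt_eq ht μ μ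
  obtain ⟨i2, e2⟩ := Qt_eq ht μ ν
  obtain ⟨i3, e3⟩ := Qt_eq ht ν μ
  obtain ⟨i4, e4⟩ := Qt_eq ht ν ν
  have hsymm : Qt t ν μ = Qt t μ ν := by
    have h1 : ∫ ξ : V, (gam t ξ : ℂ) * (chi ν ξ * conj (chi μ ξ)) =
        conj (∫ ξ : V, (gam t ξ : ℂ) * (chi μ ξ * conj (chi ν ξ))) := by
      rw [← integral_conj]
      refine integral_congr_ae (Eventually.of_forall fun ξ => ?_)
      simp only [map_mul, Complex.conj_ofReal, Complex.conj_conj]
      ring
    rw [e2, e3, Complex.conj_ofReal] at h1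
    exact_mod_cast h1
  have hpt : ∀ ξ : V, ((gam t ξ * ‖chi μ ξ - chi ν ξ‖ ^ 2 : ℝ) : ℂ) =
      (gam t ξ : ℂ) * (chi μ ξ * conj (chi μ ξ)) - (gam t ξ : ℂ) * (chi μ ξ * conj (chi ν ξ)) -
      (gam t ξ : ℂ) * (chi ν ξ * conj (chi μ ξ)) + (gam t ξ : ℂ) * (chi ν ξ * conj (chi ν ξ)) := by
    intro ξ
    rw [Complex.ofReal_mul, ← Complex.normSq_eq_norm_sq, ← Complex.mul_conj, map_sub]
    ring
  have hI : Integrable (fun ξ : V => ((gam t ξ * ‖chi μ ξ - chi ν ξ‖ ^ 2 : ℝ) : ℂ)) := by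
    simp only [hpt]
    exact ((i1.sub i2).sub i3).add i4
  have hIr : Integrable (fun ξ : V => gam t ξ * ‖chi μ ξ - chi ν ξ‖ ^ 2) := by
    have h1 : (fun ξ : V => gam t ξ * ‖chi μ ξ - chi ν ξ‖ ^ 2) =
        fun ξ : V => RCLike.re ((gam t ξ * ‖chi μ ξ - chi ν ξ‖ ^ 2 : ℝ) : ℂ) := by
      funext ξ
      exact (Complex.ofReal_re _).symm
    rw [h1]
    exact hI.re
  have hval : ∫ ξ : V, gam t ξ * ‖chi μ ξ - chi ν ξ‖ ^ 2 =
      Qt t μ μ - 2 * Qt t μ ν + Qt t ν ν := by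
    have h1 : ((∫ ξ : V, gam t ξ * ‖chi μ ξ - chi ν ξ‖ ^ 2 : ℝ) : ℂ) =
        ((Qt t μ μ - 2 * Qt t μ ν + Qt t ν ν : ℝ) : ℂ) := by
      rw [← integral_complex_ofReal]
      simp only [hpt]
      rw [int_four i1 i2 i3 i4, e1, e2, e3, e4, hsymm]
      push_cast
      ring
    exact_mod_cast h1
  have hnn : ∀ ξ : V, 0 ≤ gam t ξ * ‖chi μ ξ - chi ν ξ‖ ^ 2 := fun ξ =>
    mul_nonneg (gam_nonneg ht ξ) (sq_nonneg _)
  refine ⟨by rw [← hval]; exact integral_nonneg hnn, ?_⟩
  rw [← hval, ofReal_integral_eq_lintegral_ofReal hIr (Eventually.of_forall hnn)]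
  refine lintegral_congr fun ξ => ?_
  rw [ENNReal.ofReal_mul (gam_nonneg ht ξ)]

end Helper23.Riesz
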