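import Pool.Agent.Helper74.Riesz.GapBdd
import Pool.Agent.Helper42.Riesz.Round
import Pool.Agent.Helper10.Riesz.Seq

/-!
# Riesz energy, `-2 < s < 0`: a priori bound for the gap
-/

set_option autoImplicit false
open MeasureTheory Set Filter Topology
open scoped ENNReal NNReal

namespace Helper23.Riesz

/-- a priori bound -/
theorem gap_bounded {s : ℝ} {d : ℕ} (hd : 2 ≤ d) (hs : -2 < s) (hs0 : s < 0) : ∃ C : ℝ, ∀ N : ℕ,
    gap s d N ≤ C * (N : ℝ) ^ (1 + s / d) :=
  gap_bounded_of (round_measure hd hs hs0)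
    (fun m p hp μ _ => replace_points (m := m) hs0 p hp μ)
    (fun N y => tuple_le_Emax (N := N) (by omega) hs0 y)

end Helper23.Riesz
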