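import Pool.Agent.Helper74.Riesz.GapNN

/-!
# Riesz energy, `-2 < s < 0`: a priori bound for the gap

`gap_bounded` from `round_measure`, `replace_points` and `tuple_le_Emax`.
-/

set_option autoImplicit false
open MeasureTheory Set Filter Topology
open scoped ENNReal NNReal

namespace Helper23.Riesz

lemma Im_sum_dirac {s : ℝ} {d : ℕ} {m : ℕ} (y : Fin m → S d) :
    Im s (∑ i, Measure.dirac (y i)) (∑ i, Measure.dirac (y i)) =
      ∑ i, ∑ j, (dist (y i) (y j)) ^ (-s) := by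
  unfold Im
  have h1 : ∀ f : S d → ℝ, ∫ x, f x ∂(∑ i, Measure.dirac (y i)) = ∑ i, f (y i) := by
    intro f
    rw [integral_finsetSum_measure fun i _ => integrable_dirac (by simp)]
    simp only [integral_dirac]
  rw [h1]
  exact Finset.sum_congr rfl fun i _ => h1 _

lemma Im_smul_sig {s : ℝ} {d : ℕ} (N : ℝ) (hN : 0 ≤ N) :
    Im s (ENNReal.ofReal N • sig d) (ENNReal.ofReal N • sig d) = N ^ 2 * V s d := by
  have hprob := isProbabilityMeasure_sig d
  have hpot : ∀ x : S d, ∫ y, (dist x y) ^ (-s) ∂(ENNReal.ofReal N • sig d) = N * V s d := by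
    intro x
    rw [integral_smul_measure, ENNReal.toReal_ofReal hN, smul_eq_mul]
    congr 1
    exact integral_K x
  unfold Im
  simp only [hpot]
  rw [integral_const, Measure.real, Measure.smul_apply, measure_univ, smul_eq_mul, smul_eq_mul,
    mul_one, ENNReal.toReal_ofReal hN]
  ring

theorem gap_bounded_of {s : ℝ} {d : ℕ}
    (hround : ∃ C : ℝ, 0 ≤ C ∧ ∀ (m : ℕ) (μ : Measure (S d)), μ univ = m →
      ∃ p : Fin m → Measure (S d), (∀ i, IsProbabilityMeasure (p i)) ∧ ∑ i, p i = μ ∧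
        ∑ i, Im s (p i) (p i) ≤ C * (m : ℝ) ^ (1 + s / d))
    (hrep : ∀ (m : ℕ) (p : Fin m → Measure (S d)) (_ : ∀ i, IsProbabilityMeasure (p i))
      (μ : Measure (S d)) [IsFiniteMeasure μ], ∃ y : Fin m → S d,
      Im s (μ + ∑ i, p i) (μ + ∑ i, p i) - ∑ i, Im s (p i) (p i) ≤
        Im s (μ + ∑ i, Measure.dirac (y i)) (μ + ∑ i, Measure.dirac (y i)))
    (htup : ∀ (N : ℕ) (y : Fin N → S d),
      ∑ i, ∑ j, (dist (y i) (y j)) ^ (-s) ≤ Emax s d N) :
    ∃ C : ℝ, ∀ N : ℕ, gap s d N ≤ C * (N : ℝ) ^ (1 + s / d) := by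
  have hprob := isProbabilityMeasure_sig d
  obtain ⟨C, -, hC⟩ := hround
  refine ⟨C, fun N => ?_⟩
  obtain ⟨p, hp, hsum, hle⟩ := hC N (ENNReal.ofReal (N:ℝ) • sig d) (by
    rw [Measure.smul_apply, measure_univ, smul_eq_mul, mul_one, ENNReal.ofReal_natCast])
  obtain ⟨y, hy⟩ := hrep N p hp 0
  rw [zero_add, zero_add, hsum, Im_smul_sig _ (Nat.cast_nonneg N), Im_sum_dirac] at hy
  have := htup N y
  unfold gap
  linarith

end Helper23.Riesz
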